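import Pool.Agent.Y862.LT.PatCore

/-!
# Patterns of quadratic residues modulo primes (project LT), in terms of natural numbers
-/

set_option autoImplicit false

namespace Pool.Agent.Y862.LT

open Finset

/-- a square, nonzero or zero modulo `p` -/
def Good (p r : ℕ) : Prop := p ∣ r ∨ (¬ p ∣ r ∧ ∃ x : ℕ, x ^ 2 ≡ r [MOD p])

lemma good_of (p : ℕ) [Fact p.Prime] (r : ℕ) (h : (r : ZMod p) = 0 ∨ quadraticChar (ZMod p) (r : ZMod p) = 1) :
    Good p r := by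
  rcases h with h | h
  · exact Or.inl ((ZMod.natCast_eq_zero_iff r p).1 h)
  · right
    have h0 : (r : ZMod p) ≠ 0 := by
      intro h0
      rw [h0] at h
      simp at h
    refine ⟨fun hd => h0 ((ZMod.natCast_eq_zero_iff r p).2 hd), ?_⟩
    obtain ⟨y, hy⟩ := (quadraticChar_one_iff_isSquare h0).1 h
    refine ⟨y.val, ?_⟩
    rw [← ZMod.natCast_eq_natCast_iff]
    push_cast
    rw [ZMod.natCast_zmod_val, hy, pow_two]

/-- large primes -/
lemma large (p : ℕ) (hp : p.Prime) (h11 : 11 ≤ p ∨ (5 ≤ p ∧ ∀ a b : ℕ, ¬ p ∣ a → ¬ p ∣ b → ¬ a ≡ b [MOD p] →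
      ¬ ((a % 5, b % 5) ∈ ({(1, 3), (3, 1), (2, 3), (3, 2), (2, 4), (4, 2)} : Finset (ℕ × ℕ)) ∨
        (a % 7, b % 7) ∈ ({(1, 5), (5, 1), (2, 3), (3, 2), (4, 6), (6, 4)} : Finset (ℕ × ℕ))) →
      ∃ x : ℕ, Good p x ∧ Good p (x + a) ∧ Good p (x + b))) (a b : ℕ)
    (hex : ¬ ((a % 5, b % 5) ∈ ({(1, 3), (3, 1), (2, 3), (3, 2), (2, 4), (4, 2)} : Finset (ℕ × ℕ)) ∨
        (a % 7, b % 7) ∈ ({(1, 5), (5, 1), (2, 3), (3, 2), (4, 6), (6, 4)} : Finset (ℕ × ℕ)))) :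
    ∃ x : ℕ, Good p x ∧ Good p (x + a) ∧ Good p (x + b) ∧
      ¬ (p ∣ x ∧ p ∣ x + a) ∧ ¬ (p ∣ x ∧ p ∣ x + b) ∧ ¬ (p ∣ x + a ∧ p ∣ x + b) := by
  haveI : Fact p.Prime := ⟨hp⟩
  have hp5 : 5 ≤ p := by
    rcases h11 with h | h
    · omega
    · exact h.1
  have hz : ∀ r : ℕ, (p ∣ r ↔ (r : ZMod p) = 0) := fun r => (ZMod.natCast_eq_zero_iff r p).symm
  -- points of `ZMod p`
  have key : ∀ y : ZMod p, (y = 0 ∨ quadraticChar (ZMod p) y = 1) →
      (y + a = 0 ∨ quadraticChar (ZMod p) (y + a) = 1) →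
      (y + b = 0 ∨ quadraticChar (ZMod p) (y + b) = 1) →
      ¬ (y = 0 ∧ y + a = 0) → ¬ (y = 0 ∧ y + b = 0) → ¬ (y + a = 0 ∧ y + b = 0) →
      ∃ x : ℕ, Good p x ∧ Good p (x + a) ∧ Good p (x + b) ∧
      ¬ (p ∣ x ∧ p ∣ x + a) ∧ ¬ (p ∣ x ∧ p ∣ x + b) ∧ ¬ (p ∣ x + a ∧ p ∣ x + b) := by
    intro y h1 h2 h3 h4 h5 h6
    have e0 : ((y.val : ℕ) : ZMod p) = y := ZMod.natCast_zmod_val y
    have ea : ((y.val + a : ℕ) : ZMod p) = y + a := by push_cast; rw [e0]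
    have eb : ((y.val + b : ℕ) : ZMod p) = y + b := by push_cast; rw [e0]
    refine ⟨y.val, good_of p _ (by rw [e0]; exact h1), good_of p _ (by rw [ea]; exact h2),
      good_of p _ (by rw [eb]; exact h3), ?_, ?_, ?_⟩
    · rw [hz, hz, e0, ea]; exact h4
    · rw [hz, hz, e0, eb]; exact h5
    · rw [hz, hz, ea, eb]; exact h6
  by_cases ha : (a : ZMod p) = 0
  · by_cases hb : (b : ZMod p) = 0
    · refine key 1 (Or.inr (map_one _)) ?_ ?_ ?_ ?_ ?_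
      · rw [ha, add_zero]; exact Or.inr (map_one _)
      · rw [hb, add_zero]; exact Or.inr (map_one _)
      · rintro ⟨h, -⟩; exact one_ne_zero h
      · rintro ⟨h, -⟩; exact one_ne_zero h
      · rintro ⟨h, -⟩
        rw [ha, add_zero] at h
        exact one_ne_zero h
    · obtain ⟨y, h1, h2⟩ := double hp5 (b : ZMod p) hb
      have hy : y ≠ 0 := by rintro rfl; simp at h1
      refine key y (Or.inr h1) ?_ h2 ?_ ?_ ?_
      · rw [ha, add_zero]; exact Or.inr h1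
      · rintro ⟨h, -⟩; exact hy h
      · rintro ⟨h, -⟩; exact hy h
      · rintro ⟨h, -⟩
        rw [ha, add_zero] at h
        exact hy h
  · by_cases hb : (b : ZMod p) = 0
    · obtain ⟨y, h1, h2⟩ := double hp5 (a : ZMod p) ha
      have hy : y ≠ 0 := by rintro rfl; simp at h1
      refine key y (Or.inr h1) h2 ?_ ?_ ?_ ?_
      · rw [hb, add_zero]; exact Or.inr h1
      · rintro ⟨h, -⟩; exact hy h
      · rintro ⟨h, -⟩; exact hy h
      · rintro ⟨-, h⟩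
        rw [hb, add_zero] at h
        exact hy h
    · by_cases hab : (a : ZMod p) = b
      · obtain ⟨y, h1, h2⟩ := double hp5 (-(a : ZMod p)) (neg_ne_zero.2 ha)
        have hy : y ≠ 0 := by rintro rfl; simp at h1
        refine key (y + -a) h2 ?_ ?_ ?_ ?_ ?_
        · rw [neg_add_cancel_right]; exact Or.inr h1
        · rw [← hab, neg_add_cancel_right]; exact Or.inr h1
        · rw [neg_add_cancel_right]; rintro ⟨-, h⟩; exact hy h
        · rw [← hab, neg_add_cancel_right]; rintro ⟨-, h⟩; exact hy h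
        · rw [neg_add_cancel_right]; rintro ⟨h, -⟩; exact hy h
      · rcases h11 with h11 | ⟨-, h11⟩
        · obtain ⟨y, h1, h2, h3⟩ := distinct h11 (a : ZMod p) b ha hb hab
          refine key y h1 h2 h3 ?_ ?_ ?_
          · rintro ⟨h, h'⟩
            rw [h, zero_add] at h'
            exact ha h'
          · rintro ⟨h, h'⟩
            rw [h, zero_add] at h'
            exact hb h'
          · rintro ⟨h, h'⟩
            exact hab (add_left_cancel (h.trans h'.symm))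
        · obtain ⟨x, h1, h2, h3⟩ := h11 a b (by rw [hz]; exact ha) (by rw [hz]; exact hb)
            (by rw [← ZMod.natCast_eq_natCast_iff]; exact hab) hex
          refine ⟨x, h1, h2, h3, ?_, ?_, ?_⟩
          · rw [hz, hz]
            rintro ⟨h, h'⟩
            push_cast at h'
            rw [h, zero_add] at h'
            exact ha h'
          · rw [hz, hz]
            rintro ⟨h, h'⟩
            push_cast at h'
            rw [h, zero_add] at h'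
            exact hb h'
          · rw [hz, hz]
            rintro ⟨h, h'⟩
            push_cast at h h'
            exact hab (add_left_cancel (h.trans h'.symm))

lemma good5 (r : ℕ) (h : r % 5 = 0 ∨ r % 5 = 1 ∨ r % 5 = 4) : Good 5 r := by
  rcases h with h | h | h
  · exact Or.inl (Nat.dvd_of_mod_eq_zero h)
  · exact Or.inr ⟨by omega, 1, by unfold Nat.ModEq; omega⟩
  · exact Or.inr ⟨by omega, 2, by unfold Nat.ModEq; omega⟩

lemma good7 (r : ℕ) (h : r % 7 = 0 ∨ r % 7 = 1 ∨ r % 7 = 2 ∨ r % 7 = 4) : Good 7 r := by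
  rcases h with h | h | h | h
  · exact Or.inl (Nat.dvd_of_mod_eq_zero h)
  · exact Or.inr ⟨by omega, 1, by unfold Nat.ModEq; omega⟩
  · exact Or.inr ⟨by omega, 3, by unfold Nat.ModEq; omega⟩
  · exact Or.inr ⟨by omega, 2, by unfold Nat.ModEq; omega⟩

lemma dec5 : ∀ u ∈ range 5, ∀ v ∈ range 5, u ≠ 0 → v ≠ 0 → u ≠ v →
    (u, v) ∉ ({(1, 3), (3, 1), (2, 3), (3, 2), (2, 4), (4, 2)} : Finset (ℕ × ℕ)) →
    ∃ x ∈ range 5, (x % 5 = 0 ∨ x % 5 = 1 ∨ x % 5 = 4) ∧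
      ((x + u) % 5 = 0 ∨ (x + u) % 5 = 1 ∨ (x + u) % 5 = 4) ∧
      ((x + v) % 5 = 0 ∨ (x + v) % 5 = 1 ∨ (x + v) % 5 = 4) := by decide

lemma dec7 : ∀ u ∈ range 7, ∀ v ∈ range 7, u ≠ 0 → v ≠ 0 → u ≠ v →
    (u, v) ∉ ({(1, 5), (5, 1), (2, 3), (3, 2), (4, 6), (6, 4)} : Finset (ℕ × ℕ)) →
    ∃ x ∈ range 7, (x % 7 = 0 ∨ x % 7 = 1 ∨ x % 7 = 2 ∨ x % 7 = 4) ∧
      ((x + u) % 7 = 0 ∨ (x + u) % 7 = 1 ∨ (x + u) % 7 = 2 ∨ (x + u) % 7 = 4) ∧
      ((x + v) % 7 = 0 ∨ (x + v) % 7 = 1 ∨ (x + v) % 7 = 2 ∨ (x + v) % 7 = 4) := by decide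

/-- **PAT** -/
theorem pat_core (p : ℕ) (hp : p.Prime) (hp5 : 5 ≤ p) (a b : ℕ)
    (hex : ¬ ((a % 5, b % 5) ∈ ({(1, 3), (3, 1), (2, 3), (3, 2), (2, 4), (4, 2)} : Finset (ℕ × ℕ)) ∨
        (a % 7, b % 7) ∈ ({(1, 5), (5, 1), (2, 3), (3, 2), (4, 6), (6, 4)} : Finset (ℕ × ℕ)))) :
    ∃ x : ℕ, Good p x ∧ Good p (x + a) ∧ Good p (x + b) ∧
      ¬ (p ∣ x ∧ p ∣ x + a) ∧ ¬ (p ∣ x ∧ p ∣ x + b) ∧ ¬ (p ∣ x + a ∧ p ∣ x + b) := by
  apply large p hp _ a b hex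
  by_cases h11 : 11 ≤ p
  · exact Or.inl h11
  right
  refine ⟨hp5, ?_⟩
  have h57 : p = 5 ∨ p = 7 := by
    have : p < 11 := by omega
    interval_cases p
    · exact Or.inl rfl
    · exact absurd hp (by norm_num)
    · exact Or.inr rfl
    · exact absurd hp (by norm_num)
    · exact absurd hp (by norm_num)
    · exact absurd hp (by norm_num)
  intro a b ha hb hab hE
  rw [not_or] at hE
  rcases h57 with rfl | rfl
  · obtain ⟨x, -, h1, h2, h3⟩ := dec5 (a % 5) (mem_range.2 (Nat.mod_lt _ (by norm_num))) (b % 5)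
      (mem_range.2 (Nat.mod_lt _ (by norm_num))) (fun h => ha (Nat.dvd_of_mod_eq_zero h))
      (fun h => hb (Nat.dvd_of_mod_eq_zero h)) hab hE.1
    refine ⟨x, good5 x h1, good5 _ ?_, good5 _ ?_⟩
    · rw [Nat.add_mod] at h2 ⊢
      rwa [Nat.mod_mod] at h2
    · rw [Nat.add_mod] at h3 ⊢
      rwa [Nat.mod_mod] at h3
  · obtain ⟨x, -, h1, h2, h3⟩ := dec7 (a % 7) (mem_range.2 (Nat.mod_lt _ (by norm_num))) (b % 7)
      (mem_range.2 (Nat.mod_lt _ (by norm_num))) (fun h => ha (Nat.dvd_of_mod_eq_zero h))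
      (fun h => hb (Nat.dvd_of_mod_eq_zero h)) hab hE.2
    refine ⟨x, good7 x h1, good7 _ ?_, good7 _ ?_⟩
    · rw [Nat.add_mod] at h2 ⊢
      rwa [Nat.mod_mod] at h2
    · rw [Nat.add_mod] at h3 ⊢
      rwa [Nat.mod_mod] at h3

end Pool.Agent.Y862.LT
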