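import Mathlib.NumberTheory.JacobiSum.Basic
import Mathlib.NumberTheory.LegendreSymbol.QuadraticChar.Basic
import Mathlib.Tactic

/-!
# Patterns of quadratic residues modulo primes (project LT)
-/

set_option autoImplicit false

namespace Pool.Agent.Y862.LT

open Finset

variable {p : ℕ} [Fact p.Prime]

lemma char_ne_two (hp : 5 ≤ p) : ringChar (ZMod p) ≠ 2 := by
  rw [ZMod.ringChar_zmod_n]; omega

lemma mulL (a : ZMod p) (ha : a ≠ 0) (x : ZMod p) : Equiv.mulLeft₀ a ha x = a * x := rfl

lemma sum_one (hp : 5 ≤ p) (c : ZMod p) : ∑ x : ZMod p, (quadraticChar (ZMod p)) (x + c) = 0 := by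
  have h := Equiv.sum_comp (Equiv.addRight c) (fun x : ZMod p => (quadraticChar (ZMod p)) x)
  simp only [Equiv.coe_addRight] at h
  rw [h]
  exact quadraticChar_sum_zero (char_ne_two hp)

lemma chi_sq {x : ZMod p} (hx : x ≠ 0) : (quadraticChar (ZMod p)) x * (quadraticChar (ZMod p)) x = 1 := by
  have := quadraticChar_sq_one hx
  rw [pow_two] at this
  exact this

lemma sum_corr1 (hp : 5 ≤ p) : ∑ x : ZMod p, (quadraticChar (ZMod p)) x * (quadraticChar (ZMod p)) (x + 1) = -1 := by
  have h2 := char_ne_two hp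
  have hne : (quadraticChar (ZMod p)) ≠ 1 := quadraticChar_ne_one h2
  have h := jacobiSum_nontrivial_inv hne
  have hinv : ((quadraticChar (ZMod p)))⁻¹ = (quadraticChar (ZMod p)) := (quadraticChar_isQuadratic (ZMod p)).inv
  rw [hinv] at h
  unfold jacobiSum at h
  have hm1 : (-1 : ZMod p) ≠ 0 := neg_ne_zero.2 one_ne_zero
  have e : ∑ x : ZMod p, (quadraticChar (ZMod p)) x * (quadraticChar (ZMod p)) (x + 1) = (quadraticChar (ZMod p)) (-1) * ∑ x : ZMod p, (quadraticChar (ZMod p)) x * (quadraticChar (ZMod p)) (1 - x) := by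
    rw [← Equiv.sum_comp (Equiv.neg (ZMod p)) (fun x => (quadraticChar (ZMod p)) x * (quadraticChar (ZMod p)) (x + 1)), Finset.mul_sum]
    apply Finset.sum_congr rfl
    intro x _
    simp only [Equiv.neg_apply]
    rw [show -x = -1 * x by ring, map_mul, show -1 * x + 1 = 1 - x by ring]
    ring
  rw [e, h]
  have := chi_sq hm1
  linarith

lemma sum_corr (hp : 5 ≤ p) (c d : ZMod p) (h : c ≠ d) :
    ∑ x : ZMod p, (quadraticChar (ZMod p)) (x + c) * (quadraticChar (ZMod p)) (x + d) = -1 := by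
  have hd : d - c ≠ 0 := sub_ne_zero.2 h.symm
  have e1 : ∑ x : ZMod p, (quadraticChar (ZMod p)) (x + c) * (quadraticChar (ZMod p)) (x + d) = ∑ x : ZMod p, (quadraticChar (ZMod p)) x * (quadraticChar (ZMod p)) (x + (d - c)) := by
    rw [← Equiv.sum_comp (Equiv.addRight c) (fun x => (quadraticChar (ZMod p)) x * (quadraticChar (ZMod p)) (x + (d - c)))]
    apply Finset.sum_congr rfl
    intro x _
    simp only [Equiv.coe_addRight]
    rw [show x + c + (d - c) = x + d by ring]
  rw [e1, ← Equiv.sum_comp (Equiv.mulLeft₀ (d - c) hd) (fun x => (quadraticChar (ZMod p)) x * (quadraticChar (ZMod p)) (x + (d - c)))]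
  rw [← sum_corr1 hp]
  apply Finset.sum_congr rfl
  intro x _
  simp only [mulL]
  rw [show (d - c) * x + (d - c) = (d - c) * (x + 1) by ring, map_mul, map_mul]
  have := chi_sq hd
  calc (quadraticChar (ZMod p)) (d - c) * (quadraticChar (ZMod p)) x * ((quadraticChar (ZMod p)) (d - c) * (quadraticChar (ZMod p)) (x + 1)) = ((quadraticChar (ZMod p)) (d - c) * (quadraticChar (ZMod p)) (d - c)) * ((quadraticChar (ZMod p)) x * (quadraticChar (ZMod p)) (x + 1)) := by ring
    _ = (quadraticChar (ZMod p)) x * (quadraticChar (ZMod p)) (x + 1) := by rw [this, one_mul]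

/-- the cubic sum -/
noncomputable def E (l : ZMod p) : ℤ := ∑ x : ZMod p, (quadraticChar (ZMod p)) x * (quadraticChar (ZMod p)) (x + 1) * (quadraticChar (ZMod p)) (x + l)

lemma corr_all (hp : 5 ≤ p) (x y : ZMod p) :
    ∑ l : ZMod p, (quadraticChar (ZMod p)) (x + l) * (quadraticChar (ZMod p)) (y + l) = (if x = y then (p : ℤ) else 0) - 1 := by
  have e : ∑ l : ZMod p, (quadraticChar (ZMod p)) (x + l) * (quadraticChar (ZMod p)) (y + l) = ∑ l : ZMod p, (quadraticChar (ZMod p)) (l + x) * (quadraticChar (ZMod p)) (l + y) :=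
    Finset.sum_congr rfl fun l _ => by rw [add_comm x, add_comm y]
  rw [e]
  by_cases h : x = y
  · subst h
    rw [if_pos rfl]
    have hs := Equiv.sum_comp (Equiv.addRight x) (fun l : ZMod p => (quadraticChar (ZMod p)) l * (quadraticChar (ZMod p)) l)
    simp only [Equiv.coe_addRight] at hs
    rw [hs]
    have h1 : ∑ l : ZMod p, (quadraticChar (ZMod p)) l * (quadraticChar (ZMod p)) l = ∑ l : ZMod p, (1 - if l = 0 then (1 : ℤ) else 0) := by
      apply Finset.sum_congr rfl
      intro l _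
      by_cases hl : l = 0
      · simp [hl]
      · rw [chi_sq hl, if_neg hl]; simp
    rw [h1, Finset.sum_sub_distrib, Finset.sum_ite_eq' Finset.univ (0 : ZMod p)]
    simp [ZMod.card]
  · rw [if_neg h, sum_corr hp x y h]; ring

lemma moment (hp : 5 ≤ p) : ∑ l : ZMod p, E l ^ 2 = (p : ℤ) * (p - 2) - 1 := by
  have h1 : ∀ l : ZMod p, E l ^ 2 = ∑ x : ZMod p, ∑ y : ZMod p,
      ((quadraticChar (ZMod p)) x * (quadraticChar (ZMod p)) (x + 1)) * ((quadraticChar (ZMod p)) y * (quadraticChar (ZMod p)) (y + 1)) * ((quadraticChar (ZMod p)) (x + l) * (quadraticChar (ZMod p)) (y + l)) := by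
    intro l
    rw [pow_two, E, Finset.sum_mul_sum]
    apply Finset.sum_congr rfl
    intro x _
    apply Finset.sum_congr rfl
    intro y _
    ring
  simp only [h1]
  rw [Finset.sum_comm]
  have h2 : ∀ x : ZMod p, ∑ l : ZMod p, ∑ y : ZMod p,
      ((quadraticChar (ZMod p)) x * (quadraticChar (ZMod p)) (x + 1)) * ((quadraticChar (ZMod p)) y * (quadraticChar (ZMod p)) (y + 1)) * ((quadraticChar (ZMod p)) (x + l) * (quadraticChar (ZMod p)) (y + l)) =
      ((quadraticChar (ZMod p)) x * (quadraticChar (ZMod p)) (x + 1)) * (((quadraticChar (ZMod p)) x * (quadraticChar (ZMod p)) (x + 1)) * p) - ((quadraticChar (ZMod p)) x * (quadraticChar (ZMod p)) (x + 1)) * ∑ y : ZMod p, (quadraticChar (ZMod p)) y * (quadraticChar (ZMod p)) (y + 1) := by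
    intro x
    rw [Finset.sum_comm]
    have h3 : ∀ y : ZMod p, ∑ l : ZMod p, ((quadraticChar (ZMod p)) x * (quadraticChar (ZMod p)) (x + 1)) * ((quadraticChar (ZMod p)) y * (quadraticChar (ZMod p)) (y + 1)) * ((quadraticChar (ZMod p)) (x + l) * (quadraticChar (ZMod p)) (y + l)) =
        ((quadraticChar (ZMod p)) x * (quadraticChar (ZMod p)) (x + 1)) * ((if x = y then ((quadraticChar (ZMod p)) y * (quadraticChar (ZMod p)) (y + 1)) * p else 0) - ((quadraticChar (ZMod p)) y * (quadraticChar (ZMod p)) (y + 1))) := by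
      intro y
      rw [← Finset.mul_sum, corr_all hp]
      split_ifs <;> ring
    simp only [h3]
    rw [← Finset.mul_sum, Finset.sum_sub_distrib, Finset.sum_ite_eq Finset.univ x]
    simp only [mem_univ, if_true]
    ring
  simp only [h2]
  rw [Finset.sum_sub_distrib, ← Finset.sum_mul, sum_corr1 hp]
  have h4 : ∑ x : ZMod p, ((quadraticChar (ZMod p)) x * (quadraticChar (ZMod p)) (x + 1)) * (((quadraticChar (ZMod p)) x * (quadraticChar (ZMod p)) (x + 1)) * p) = (p : ℤ) * (p - 2) := by
    have h5 : ∀ x : ZMod p, ((quadraticChar (ZMod p)) x * (quadraticChar (ZMod p)) (x + 1)) * (((quadraticChar (ZMod p)) x * (quadraticChar (ZMod p)) (x + 1)) * p) =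
        p * (1 - (if x = 0 then (1 : ℤ) else 0) - (if x = -1 then (1 : ℤ) else 0)) := by
      intro x
      by_cases h0 : x = 0
      · subst h0
        have : (0 : ZMod p) ≠ -1 := by
          intro h
          have : (1 : ZMod p) = 0 := by linear_combination h
          exact one_ne_zero this
        simp [this]
      · by_cases h1 : x = -1
        · subst h1
          simp [h0]
        · have hx1 : x + 1 ≠ 0 := fun h => h1 (eq_neg_of_add_eq_zero_left h)
          rw [if_neg h0, if_neg h1]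
          have e1 := chi_sq h0
          have e2 := chi_sq hx1
          calc ((quadraticChar (ZMod p)) x * (quadraticChar (ZMod p)) (x + 1)) * (((quadraticChar (ZMod p)) x * (quadraticChar (ZMod p)) (x + 1)) * p) =
              ((quadraticChar (ZMod p)) x * (quadraticChar (ZMod p)) x) * ((quadraticChar (ZMod p)) (x + 1) * (quadraticChar (ZMod p)) (x + 1)) * p := by ring
            _ = p * (1 - 0 - 0) := by rw [e1, e2]; ring
    simp only [h5]
    rw [← Finset.mul_sum, Finset.sum_sub_distrib, Finset.sum_sub_distrib,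
      Finset.sum_ite_eq' Finset.univ (0 : ZMod p), Finset.sum_ite_eq' Finset.univ (-1 : ZMod p)]
    simp [ZMod.card]
    left
    ring
  rw [h4]
  ring

lemma E_refl (l : ZMod p) : E (1 - l) = (quadraticChar (ZMod p)) (-1) * E l := by
  have hm1 : (-1 : ZMod p) ≠ 0 := neg_ne_zero.2 one_ne_zero
  unfold E
  rw [← Equiv.sum_comp (Equiv.subLeft (-1 : ZMod p)) (fun x => (quadraticChar (ZMod p)) x * (quadraticChar (ZMod p)) (x + 1) * (quadraticChar (ZMod p)) (x + (1 - l))),
    Finset.mul_sum]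
  apply Finset.sum_congr rfl
  intro x _
  simp only [Equiv.subLeft_apply]
  rw [show (-1 : ZMod p) - x = -1 * (x + 1) by ring, show -1 * (x + 1) + 1 = -1 * x by ring,
    show -1 * (x + 1) + (1 - l) = -1 * (x + l) by ring, map_mul, map_mul, map_mul]
  have := chi_sq hm1
  calc (quadraticChar (ZMod p)) (-1) * (quadraticChar (ZMod p)) (x + 1) * ((quadraticChar (ZMod p)) (-1) * (quadraticChar (ZMod p)) x) * ((quadraticChar (ZMod p)) (-1) * (quadraticChar (ZMod p)) (x + l)) =
      ((quadraticChar (ZMod p)) (-1) * (quadraticChar (ZMod p)) (-1)) * ((quadraticChar (ZMod p)) (-1) * ((quadraticChar (ZMod p)) x * (quadraticChar (ZMod p)) (x + 1) * (quadraticChar (ZMod p)) (x + l))) := by ring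
    _ = _ := by rw [this, one_mul]

lemma E_inv (l : ZMod p) (hl : l ≠ 0) : E l⁻¹ = (quadraticChar (ZMod p)) l * E l := by
  unfold E
  have hli : l⁻¹ ≠ 0 := inv_ne_zero hl
  rw [← Equiv.sum_comp (Equiv.mulLeft₀ l⁻¹ hli) (fun x => (quadraticChar (ZMod p)) x * (quadraticChar (ZMod p)) (x + 1) * (quadraticChar (ZMod p)) (x + l⁻¹)),
    Finset.mul_sum]
  apply Finset.sum_congr rfl
  intro x _
  simp only [mulL]
  rw [show l⁻¹ * x + 1 = l⁻¹ * (x + l) by field_simp, show l⁻¹ * x + l⁻¹ = l⁻¹ * (x + 1) by ring,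
    map_mul, map_mul, map_mul]
  have h1 := chi_sq hli
  have h2 : (quadraticChar (ZMod p)) l⁻¹ = (quadraticChar (ZMod p)) l := by
    have h3 : (quadraticChar (ZMod p)) l * (quadraticChar (ZMod p)) l⁻¹ = 1 := by rw [← map_mul, mul_inv_cancel₀ hl, map_one]
    have h4 := chi_sq hl
    calc (quadraticChar (ZMod p)) l⁻¹ = ((quadraticChar (ZMod p)) l * (quadraticChar (ZMod p)) l) * (quadraticChar (ZMod p)) l⁻¹ := by rw [h4, one_mul]
      _ = (quadraticChar (ZMod p)) l * ((quadraticChar (ZMod p)) l * (quadraticChar (ZMod p)) l⁻¹) := by ring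
      _ = (quadraticChar (ZMod p)) l := by rw [h3, mul_one]
  calc (quadraticChar (ZMod p)) l⁻¹ * (quadraticChar (ZMod p)) x * ((quadraticChar (ZMod p)) l⁻¹ * (quadraticChar (ZMod p)) (x + l)) * ((quadraticChar (ZMod p)) l⁻¹ * (quadraticChar (ZMod p)) (x + 1)) =
      ((quadraticChar (ZMod p)) l⁻¹ * (quadraticChar (ZMod p)) l⁻¹) * ((quadraticChar (ZMod p)) l⁻¹ * ((quadraticChar (ZMod p)) x * (quadraticChar (ZMod p)) (x + 1) * (quadraticChar (ZMod p)) (x + l))) := by ring
    _ = _ := by rw [h1, one_mul, h2]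

lemma sq_of_unit {e : ZMod p} (he : e ≠ 0) (z : ℤ) : ((quadraticChar (ZMod p)) e * z) ^ 2 = z ^ 2 := by
  have := chi_sq he
  calc ((quadraticChar (ZMod p)) e * z) ^ 2 = ((quadraticChar (ZMod p)) e * (quadraticChar (ZMod p)) e) * z ^ 2 := by ring
    _ = z ^ 2 := by rw [this, one_mul]

/-- the bound -/
lemma E_bound (hp : 11 ≤ p) (l : ZMod p) (hl : l ≠ 0) : E l ^ 2 < ((p : ℤ) - 3) ^ 2 := by
  have hp5 : 5 ≤ p := by omega
  have hm1 : (-1 : ZMod p) ≠ 0 := neg_ne_zero.2 one_ne_zero
  obtain ⟨l', hl1, hl2⟩ : ∃ l' : ZMod p, l' ≠ l ∧ E l' ^ 2 = E l ^ 2 := by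
    by_cases h : 1 - l = l
    · refine ⟨l⁻¹, ?_, ?_⟩
      · intro h1
        have h2 : l * l = 1 := by
          have := mul_inv_cancel₀ hl
          rw [h1] at this
          exact this
        have h3 : 2 * l = 1 := by linear_combination -h
        have h4 : (3 : ZMod p) = 0 := by
          have : (4 : ZMod p) * (l * l) = 1 := by linear_combination (2 * l + 1) * h3
          rw [h2] at this
          linear_combination this
        have h5 : ((3 : ℕ) : ZMod p) = 0 := by exact_mod_cast h4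
        rw [ZMod.natCast_eq_zero_iff] at h5
        have := Nat.le_of_dvd (by norm_num) h5
        omega
      · rw [E_inv l hl, sq_of_unit hl]
    · exact ⟨1 - l, h, by rw [E_refl, sq_of_unit hm1]⟩
  have h1 : E l' ^ 2 + E l ^ 2 ≤ ∑ l : ZMod p, E l ^ 2 := by
    rw [← Finset.sum_pair (f := fun l : ZMod p => E l ^ 2) hl1]
    exact Finset.sum_le_sum_of_subset_of_nonneg (Finset.subset_univ _) fun _ _ _ => sq_nonneg _
  rw [moment hp5, hl2] at h1
  have h2 : (11 : ℤ) ≤ p := by exact_mod_cast hp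
  nlinarith

lemma chi_cases (x : ZMod p) : x = 0 ∨ (quadraticChar (ZMod p)) x = 1 ∨ (quadraticChar (ZMod p)) x = -1 := by
  by_cases h : x = 0
  · exact Or.inl h
  · exact Or.inr (quadraticChar_dichotomy h)

lemma pos_imp {x : ZMod p} (h : 0 < 1 + (quadraticChar (ZMod p)) x) : x = 0 ∨ (quadraticChar (ZMod p)) x = 1 := by
  rcases chi_cases x with h1 | h1 | h1
  · exact Or.inl h1
  · exact Or.inr h1
  · rw [h1] at h; norm_num at h

lemma nn (x : ZMod p) : 0 ≤ 1 + (quadraticChar (ZMod p)) x := by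
  rcases chi_cases x with h1 | h1 | h1
  · rw [h1]; simp
  · rw [h1]; norm_num
  · rw [h1]; norm_num

lemma le_two (x : ZMod p) : 1 + (quadraticChar (ZMod p)) x ≤ 2 := by
  rcases chi_cases x with h1 | h1 | h1
  · rw [h1]; simp
  · rw [h1]; norm_num
  · rw [h1]; norm_num

/-- three distinct points -/
lemma distinct (hp : 11 ≤ p) (u v : ZMod p) (hu : u ≠ 0) (hv : v ≠ 0) (huv : u ≠ v) :
    ∃ x : ZMod p, (x = 0 ∨ (quadraticChar (ZMod p)) x = 1) ∧ (x + u = 0 ∨ (quadraticChar (ZMod p)) (x + u) = 1) ∧ (x + v = 0 ∨ (quadraticChar (ZMod p)) (x + v) = 1) := by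
  have hp5 : 5 ≤ p := by omega
  have hE : ∑ x : ZMod p, (quadraticChar (ZMod p)) x * (quadraticChar (ZMod p)) (x + u) * (quadraticChar (ZMod p)) (x + v) = (quadraticChar (ZMod p)) u * E (v / u) := by
    unfold E
    rw [← Equiv.sum_comp (Equiv.mulLeft₀ u hu) (fun x => (quadraticChar (ZMod p)) x * (quadraticChar (ZMod p)) (x + u) * (quadraticChar (ZMod p)) (x + v)), Finset.mul_sum]
    apply Finset.sum_congr rfl
    intro x _
    simp only [mulL]
    rw [show u * x + u = u * (x + 1) by ring, show u * x + v = u * (x + v / u) by field_simp,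
      map_mul, map_mul, map_mul]
    have := chi_sq hu
    calc (quadraticChar (ZMod p)) u * (quadraticChar (ZMod p)) x * ((quadraticChar (ZMod p)) u * (quadraticChar (ZMod p)) (x + 1)) * ((quadraticChar (ZMod p)) u * (quadraticChar (ZMod p)) (x + v / u)) =
        ((quadraticChar (ZMod p)) u * (quadraticChar (ZMod p)) u) * ((quadraticChar (ZMod p)) u * ((quadraticChar (ZMod p)) x * (quadraticChar (ZMod p)) (x + 1) * (quadraticChar (ZMod p)) (x + v / u))) := by ring
      _ = _ := by rw [this, one_mul]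
  have hb : (∑ x : ZMod p, (quadraticChar (ZMod p)) x * (quadraticChar (ZMod p)) (x + u) * (quadraticChar (ZMod p)) (x + v)) ^ 2 < ((p : ℤ) - 3) ^ 2 := by
    rw [hE, sq_of_unit hu]
    exact E_bound hp _ (div_ne_zero hv hu)
  have hb2 : -((p : ℤ) - 3) < ∑ x : ZMod p, (quadraticChar (ZMod p)) x * (quadraticChar (ZMod p)) (x + u) * (quadraticChar (ZMod p)) (x + v) := by
    have h2 : (11 : ℤ) ≤ p := by exact_mod_cast hp
    exact (abs_lt_of_sq_lt_sq' hb (by linarith)).1
  have hsum : ∑ x : ZMod p, (1 + (quadraticChar (ZMod p)) x) * (1 + (quadraticChar (ZMod p)) (x + u)) * (1 + (quadraticChar (ZMod p)) (x + v)) =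
      p - 3 + ∑ x : ZMod p, (quadraticChar (ZMod p)) x * (quadraticChar (ZMod p)) (x + u) * (quadraticChar (ZMod p)) (x + v) := by
    have e : ∀ x : ZMod p, (1 + (quadraticChar (ZMod p)) x) * (1 + (quadraticChar (ZMod p)) (x + u)) * (1 + (quadraticChar (ZMod p)) (x + v)) =
        1 + (quadraticChar (ZMod p)) (x + 0) + (quadraticChar (ZMod p)) (x + u) + (quadraticChar (ZMod p)) (x + v) + (quadraticChar (ZMod p)) (x + 0) * (quadraticChar (ZMod p)) (x + u) + (quadraticChar (ZMod p)) (x + 0) * (quadraticChar (ZMod p)) (x + v) +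
          (quadraticChar (ZMod p)) (x + u) * (quadraticChar (ZMod p)) (x + v) + (quadraticChar (ZMod p)) x * (quadraticChar (ZMod p)) (x + u) * (quadraticChar (ZMod p)) (x + v) := by
      intro x
      rw [add_zero]
      ring
    simp only [e]
    rw [Finset.sum_add_distrib, Finset.sum_add_distrib, Finset.sum_add_distrib, Finset.sum_add_distrib,
      Finset.sum_add_distrib, Finset.sum_add_distrib, Finset.sum_add_distrib, sum_one hp5, sum_one hp5,
      sum_one hp5, sum_corr hp5 0 u hu.symm, sum_corr hp5 0 v hv.symm, sum_corr hp5 u v huv]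
    simp [ZMod.card]
    ring
  have hpos : 0 < ∑ x : ZMod p, (1 + (quadraticChar (ZMod p)) x) * (1 + (quadraticChar (ZMod p)) (x + u)) * (1 + (quadraticChar (ZMod p)) (x + v)) := by
    rw [hsum]; linarith
  obtain ⟨x, -, hx⟩ := Finset.exists_lt_of_sum_lt (s := Finset.univ) (f := fun _ : ZMod p => (0 : ℤ))
    (g := fun x => (1 + (quadraticChar (ZMod p)) x) * (1 + (quadraticChar (ZMod p)) (x + u)) * (1 + (quadraticChar (ZMod p)) (x + v))) (by simpa using hpos)
  refine ⟨x, pos_imp ?_, pos_imp ?_, pos_imp ?_⟩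
  · refine lt_of_le_of_ne (nn _) fun h => ?_
    simp only [← h] at hx
    norm_num at hx
  · refine lt_of_le_of_ne (nn _) fun h => ?_
    simp only [← h] at hx
    norm_num at hx
  · refine lt_of_le_of_ne (nn _) fun h => ?_
    simp only [← h] at hx
    norm_num at hx

/-- a double point -/
lemma double (hp : 5 ≤ p) (c : ZMod p) (hc : c ≠ 0) :
    ∃ y : ZMod p, (quadraticChar (ZMod p)) y = 1 ∧ (y + c = 0 ∨ (quadraticChar (ZMod p)) (y + c) = 1) := by
  have hsum : ∑ x : ZMod p, (1 + (quadraticChar (ZMod p)) x) * (1 + (quadraticChar (ZMod p)) (x + c)) = p - 1 := by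
    have e : ∀ x : ZMod p, (1 + (quadraticChar (ZMod p)) x) * (1 + (quadraticChar (ZMod p)) (x + c)) =
        1 + (quadraticChar (ZMod p)) (x + 0) + (quadraticChar (ZMod p)) (x + c) + (quadraticChar (ZMod p)) (x + 0) * (quadraticChar (ZMod p)) (x + c) := by
      intro x
      rw [add_zero]
      ring
    simp only [e]
    rw [Finset.sum_add_distrib, Finset.sum_add_distrib, Finset.sum_add_distrib, sum_one hp, sum_one hp,
      sum_corr hp 0 c hc.symm]
    simp [ZMod.card]
    ring
  have h1 : ∑ x : ZMod p, (1 + (quadraticChar (ZMod p)) x) * (1 + (quadraticChar (ZMod p)) (x + c)) =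
      (1 + (quadraticChar (ZMod p)) (0 : ZMod p)) * (1 + (quadraticChar (ZMod p)) (0 + c)) +
        ∑ x ∈ Finset.univ.erase (0 : ZMod p), (1 + (quadraticChar (ZMod p)) x) * (1 + (quadraticChar (ZMod p)) (x + c)) :=
    (Finset.add_sum_erase _ _ (Finset.mem_univ _)).symm
  have h2 : (1 + (quadraticChar (ZMod p)) (0 : ZMod p)) * (1 + (quadraticChar (ZMod p)) (0 + c)) ≤ 2 := by
    have := le_two (0 + c)
    simp only [MulChar.map_zero, add_zero, one_mul]
    exact this
  have hpz : (5 : ℤ) ≤ p := by exact_mod_cast hp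
  have hpos : 0 < ∑ x ∈ Finset.univ.erase (0 : ZMod p), (1 + (quadraticChar (ZMod p)) x) * (1 + (quadraticChar (ZMod p)) (x + c)) := by
    linarith
  obtain ⟨x, hx0, hx⟩ := Finset.exists_lt_of_sum_lt (s := Finset.univ.erase (0 : ZMod p))
    (f := fun _ : ZMod p => (0 : ℤ))
    (g := fun x => (1 + (quadraticChar (ZMod p)) x) * (1 + (quadraticChar (ZMod p)) (x + c))) (by simpa using hpos)
  have hx0' : x ≠ 0 := Finset.ne_of_mem_erase hx0
  refine ⟨x, ?_, pos_imp ?_⟩
  · have : 0 < 1 + (quadraticChar (ZMod p)) x := by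
      refine lt_of_le_of_ne (nn _) fun h => ?_
      simp only [← h] at hx
      norm_num at hx
    exact (pos_imp this).resolve_left hx0'
  · refine lt_of_le_of_ne (nn _) fun h => ?_
    simp only [← h] at hx
    norm_num at hx

end Pool.Agent.Y862.LT
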