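import Pool.Agent.Y872.L.Defs
import Pool.Agent.Y862.LT.Pat

/-!
# Project LT: the statement `S_PAT`
-/

set_option autoImplicit false

namespace Pool.Agent.Y862.LT

/-- **PAT** -/
theorem pat : Pool.Agent.Y872.L.S_PAT := by
  intro p hp h5 a b hex
  obtain ⟨x, h1, h2, h3, h4⟩ := pat_core p hp h5 a b (fun h => hex (Or.inr h))
  exact ⟨x, h1, h2, h3, h4⟩

end Pool.Agent.Y862.LT
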